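import Pool.Agent.PQP.StmtsZ

set_option autoImplicit false

open scoped InnerProductSpace Topology ContDiff Manifold
open MeasureTheory Filter Set

noncomputable section

namespace Pool.Agent.PQP.H7

open Pool.Agent.Helper42_Paneitz Pool.Agent.Helper82_Vir Pool.Agent.FLX Pool.Agent.PQP

theorem nrm_coe (w : S4) : nrm (w : E5) = w := by
  unfold nrm
  rw [dif_neg (S4_ne_zero w)]
  apply Subtype.ext
  show ‖(w : E5)‖⁻¹ • (w : E5) = w
  rw [S4_norm, inv_one, one_smul]

/-- the unit vector of the line -/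
def e4 : P1 := ⟨ee 4, Submodule.mem_span_singleton_self _⟩

theorem norm_iota (z : ℝ) : ‖z • e4‖ = ‖z‖ := by
  rw [norm_smul]
  have : ‖e4‖ = 1 := norm_ee 4
  rw [this, mul_one]

/-- the map of the domains -/
def jj {E : Type} (z : ℝ × E) : P1 × E := (z.1 • e4, z.2)

theorem d1 (hZAN : ZanStmt) (hES1 : Es1Stmt) (hMDC : MdcStmt) : D1Stmt := by
  intro ψ S hψ hInv hS hpos
  have hmul : sphLaplacian ψ (pt 4) ≠ 0 ∧ sphLaplacian ψ S ≠ 0 := by
    constructor
    · intro h; rw [h, zero_mul] at hpos; exact lt_irrefl _ hpos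
    · intro h; rw [h, mul_zero] at hpos; exact lt_irrefl _ hpos
  apply hZAN P1 ψ hψ hInv
  · intro h
    have h1 : (ee 4 : E5) ∈ P1 := Submodule.mem_span_singleton_self _
    rw [h, Submodule.mem_bot] at h1
    have h2 := norm_ee 4
    rw [h1, norm_zero] at h2
    norm_num at h2
  · intro p hp _
    obtain ⟨c, hc⟩ := Submodule.mem_span_singleton.1 hp
    have hn := S4_norm p
    rw [← hc, norm_smul, norm_ee, mul_one, Real.norm_eq_abs] at hn
    rcases (abs_eq (by norm_num : (0 : ℝ) ≤ 1)).1 hn with h | h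
    · have : p = pt 4 := by
        apply Subtype.ext
        rw [← hc, h, one_smul]
        rfl
      rw [this]; exact hmul.1
    · have : p = S := by
        apply Subtype.ext
        rw [← hc, h, hS, neg_smul, one_smul]
        rfl
      rw [this]; exact hmul.2
  · rintro ⟨β', T', hβ', hT', hbd, hne⟩
    obtain ⟨hmc, hmv⟩ := hMDC P1 ψ hψ hInv
    set b : ℝ → ℝ := fun z => ⟪(ee 4 : E5), (mdl P1 ψ (z • e4) : E5)⟫_ℝ with hb
    have hbc : Continuous b := by
      have h1 : Continuous fun z : ℝ => z • e4 := continuous_id.smul continuous_const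
      exact continuous_const.inner (continuous_subtype_val.comp (hmc.comp h1))
    have hb1 : b 1 = - sphLaplacian ψ (pt 4) := by
      have h0 : ((1 : ℝ) • e4 : P1) = e4 := one_smul _ _
      have h1 : nrm ((e4 : P1) : E5) = pt 4 := nrm_coe (pt 4)
      have h2 : ‖(e4 : P1)‖ = 1 := norm_ee 4
      have h3 : dd ψ (pt 4) (ee 4) = 0 := dd_self hψ (pt 4)
      have h4 : ⟪(ee 4 : E5), ((pt 4 : S4) : E5)⟫_ℝ = 1 := by
        show ⟪(ee 4 : E5), ee 4⟫_ℝ = 1
        rw [real_inner_self_eq_norm_sq, norm_ee]; norm_num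
      rw [hb]
      show ⟪(ee 4 : E5), (mdl P1 ψ ((1 : ℝ) • e4) : E5)⟫_ℝ = _
      rw [h0, hmv, h1, h2, one_smul]
      unfold mw
      rw [inner_add_right, inner_smul_right, inner_gd, h3, h4]
      ring
    have hb2 : b (-1) = sphLaplacian ψ S := by
      have h0 : (((-1 : ℝ) • e4 : P1) : E5) = (S : E5) := by
        rw [hS]
        show (-1 : ℝ) • (ee 4 : E5) = - ee 4
        rw [neg_smul, one_smul]
      have h1 : nrm (((-1 : ℝ) • e4 : P1) : E5) = S := by rw [h0]; exact nrm_coe S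
      have h2 : ‖((-1 : ℝ) • e4 : P1)‖ = 1 := by rw [norm_iota]; norm_num
      have h5 : (ee 4 : E5) = -(S : E5) := by
        rw [hS, neg_neg]; rfl
      have h3 : dd ψ S (ee 4) = 0 := by
        rw [h5, dd_neg, dd_self hψ S, neg_zero]
      have h4 : ⟪(ee 4 : E5), (S : E5)⟫_ℝ = -1 := by
        rw [h5, inner_neg_left, real_inner_self_eq_norm_sq, S4_norm]; norm_num
      rw [hb]
      show ⟪(ee 4 : E5), (mdl P1 ψ ((-1 : ℝ) • e4) : E5)⟫_ℝ = _
      rw [hmv, h1, h2, one_smul]
      unfold mw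
      rw [inner_add_right, inner_smul_right, inner_gd, h3, h4]
      ring
    have hb12 : b 1 * b (-1) < 0 := by
      rw [hb1, hb2]; nlinarith
    refine hES1 (EE P1) b hbc hb12 ?_
    have hjc : Continuous (jj : ℝ × EE P1 → P1 × EE P1) := by
      unfold jj
      exact (continuous_fst.smul continuous_const).prodMk continuous_snd
    have hjD : ∀ z ∈ Dm ℝ (EE P1), jj z ∈ Dm P1 (EE P1) := by
      rintro z ⟨h1, h2⟩
      refine ⟨?_, h2⟩
      show ‖z.1 • e4‖ ≤ 1
      rw [norm_iota]; exact h1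
    have hjB : ∀ z ∈ Bd ℝ (EE P1), jj z ∈ Bd P1 (EE P1) := by
      rintro z ⟨h1, h2, h3⟩
      refine ⟨?_, h2, ?_⟩
      · show ‖z.1 • e4‖ ≤ 1
        rw [norm_iota]; exact h1
      · rcases h3 with h3 | h3
        · left
          show ‖z.1 • e4‖ = 1
          rw [norm_iota]; exact h3
        · right; exact h3
    refine ⟨fun z => ⟪(ee 4 : E5), (β' (jj z) : E5)⟫_ℝ, fun z => T' (jj z), ?_, ⟨?_, ?_⟩, ?_, ?_⟩
    · have h1 : ContinuousOn (fun z => β' (jj z)) (Dm ℝ (EE P1)) :=
        hβ'.comp hjc.continuousOn hjD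
      exact (continuous_const.inner continuous_subtype_val).comp_continuousOn h1
    · exact hT'.1.comp hjc.continuousOn hjD
    · obtain ⟨K, hK, hKm⟩ := hT'.2
      exact ⟨K, hK, fun z hz => hKm _ (hjD z hz)⟩
    · intro z hz
      obtain ⟨h1, h2⟩ := hbd (jj z) (hjB z hz)
      refine ⟨?_, h2⟩
      show ⟪(ee 4 : E5), (β' (jj z) : E5)⟫_ℝ = b z.1
      rw [h1]
      rfl
    · rintro z hz ⟨h1, h2⟩
      refine hne (jj z) (hjD z hz) ⟨?_, h2⟩
      obtain ⟨c, hc⟩ := Submodule.mem_span_singleton.1 (β' (jj z)).2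
      have h3 : c = 0 := by
        have h4 : ⟪(ee 4 : E5), (β' (jj z) : E5)⟫_ℝ = 0 := h1
        rw [← hc, inner_smul_right, real_inner_self_eq_norm_sq, norm_ee] at h4
        simpa using h4
      apply Subtype.ext
      rw [← hc, h3, zero_smul]
      rfl

end Pool.Agent.PQP.H7
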