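import Pool.Agent.PQP.StmtsE

set_option autoImplicit false

open scoped InnerProductSpace Topology ContDiff Manifold
open MeasureTheory Filter Set

noncomputable section

namespace Pool.Agent.PQP.H7

open Pool.Agent.Helper42_Paneitz Pool.Agent.Helper82_Vir Pool.Agent.FLX Pool.Agent.PQP

theorem log_bound {η : ℝ} (hη : 0 < η) (hη1 : η ≤ 1) {v : ℝ} (h0 : 0 < v) (h2 : v ≤ 2) :
    1 + |Real.log v| ≤ (4 + 1 / η) * v ^ (-η) := by
  have hinv : 0 < 1 / η := by positivity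
  rcases le_or_gt v 1 with h | h
  · have h1 := Real.abs_log_mul_self_rpow_lt v η h0 h hη
    have hp : 0 < v ^ η := Real.rpow_pos_of_pos h0 η
    have hle : v ^ η ≤ 1 := Real.rpow_le_one h0.le h hη.le
    rw [abs_mul, abs_of_pos hp] at h1
    rw [Real.rpow_neg h0.le]
    have h3 : (1 + |Real.log v|) * v ^ η ≤ 4 + 1 / η := by nlinarith
    calc 1 + |Real.log v| = (1 + |Real.log v|) * v ^ η * (v ^ η)⁻¹ := by
          field_simp
      _ ≤ (4 + 1 / η) * (v ^ η)⁻¹ := by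
          apply mul_le_mul_of_nonneg_right h3 (by positivity)
  · have hl0 : 0 ≤ Real.log v := Real.log_nonneg h.le
    have hl : Real.log v ≤ 1 := by
      have := Real.log_le_sub_one_of_pos h0
      linarith
    have h5 : (2 : ℝ) ^ (-η) ≤ v ^ (-η) := Real.rpow_le_rpow_of_nonpos h0 h2 (by linarith)
    have h6 : (1 : ℝ) / 2 ≤ (2 : ℝ) ^ (-η) := by
      have h7 : (2 : ℝ) ^ (-1 : ℝ) ≤ (2 : ℝ) ^ (-η) :=
        Real.rpow_le_rpow_of_exponent_le (by norm_num) (by linarith)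
      rw [Real.rpow_neg_one] at h7
      linarith
    rw [abs_of_nonneg hl0]
    have h8 : (1 : ℝ) / 2 ≤ v ^ (-η) := h6.trans h5
    have h9 : (4 : ℝ) * (1 / 2) ≤ (4 + 1 / η) * v ^ (-η) :=
      mul_le_mul (by linarith) h8 (by norm_num) (by linarith)
    linarith

theorem mkb (mow : MowStmt) (pow : PowStmt) : MkbStmt := by
  intro a ha0 ha4
  set θ : ℝ := a / 2 with hθ
  have hθ0 : 0 ≤ θ := by rw [hθ]; linarith
  have hθ2 : θ < 2 := by rw [hθ]; linarith
  set m : ℝ := 4 / (θ + 2) with hm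
  have hm1 : 1 < m := by
    rw [hm, lt_div_iff₀ (by linarith)]; linarith
  have hm0 : 0 < m := by linarith
  set m' : ℝ := m / (m - 1) with hm'
  have hm1' : 1 < m' := by
    rw [hm', lt_div_iff₀ (by linarith)]; linarith
  have hm0' : 0 < m' := by linarith
  have hconj : Real.HolderConjugate m' m := by
    rw [Real.holderConjugate_iff]
    refine ⟨hm1', ?_⟩
    rw [hm']
    have : m - 1 ≠ 0 := by linarith
    have : m ≠ 0 := hm0.ne'
    field_simp
    ring
  have hθm : θ * m < 2 := by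
    rw [hm, mul_div_assoc', div_lt_iff₀ (by linarith)]; linarith
  set η : ℝ := 1 / m' with hη
  have hη0 : 0 < η := by rw [hη]; positivity
  have hη1 : η ≤ 1 := by
    rw [hη, div_le_one hm0']; exact hm1'.le
  obtain ⟨C1, hC10, hC1⟩ := pow 1 (by norm_num)
  obtain ⟨C2, hC20, hC2⟩ := pow (θ * m) hθm
  refine ⟨(8 : ℝ) ^ θ * (4 + 1 / η) * (C1 + C2), by positivity, ?_⟩
  intro w x l hl0 hl1
  have hσ2 : 0 < 1 - l ^ 2 := by nlinarith
  set σ : ℝ := √(1 - l ^ 2) with hσ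
  have hσ0 : 0 < σ := Real.sqrt_pos.2 hσ2
  have hσsq : σ ^ 2 = 1 - l ^ 2 := Real.sq_sqrt hσ2.le
  -- pointwise
  have hpt : ∀ᵐ y ∂sig, (1 + |ell x y|) * ‖(mob (l • (w : E5)) y : E5) - (w : E5)‖ ^ a ≤
      (8 : ℝ) ^ θ * (4 + 1 / η) * σ ^ a *
        ((1 - ⟪(x : E5), (y : E5)⟫_ℝ) ^ (-(1 : ℝ)) +
          (1 - ⟪((-w : S4) : E5), (y : E5)⟫_ℝ) ^ (-(θ * m))) := by
    filter_upwards [ae_ne x, ae_ne (-w)] with y hyx hyw
    have hv0 : 0 < 1 - ⟪(x : E5), (y : E5)⟫_ℝ := by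
      have h1 := dist_sq x y
      have h2 : 0 < dist y x := dist_pos.2 hyx
      nlinarith
    have hv2 : 1 - ⟪(x : E5), (y : E5)⟫_ℝ ≤ 2 := by
      have := neg_one_le_inner x y
      linarith
    have hu0 : 0 < 1 - ⟪((-w : S4) : E5), (y : E5)⟫_ℝ := by
      have h1 := dist_sq (-w) y
      have h2 : 0 < dist y (-w) := dist_pos.2 hyw
      nlinarith
    have hue : 1 - ⟪((-w : S4) : E5), (y : E5)⟫_ℝ = 1 + ⟪(w : E5), (y : E5)⟫_ℝ := by
      have : ((-w : S4) : E5) = -(w : E5) := rfl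
      rw [this, inner_neg_left]; ring
    set v : ℝ := 1 - ⟪(x : E5), (y : E5)⟫_ℝ with hv
    set u : ℝ := 1 - ⟪((-w : S4) : E5), (y : E5)⟫_ℝ with hu
    set s : ℝ := ⟪(w : E5), (y : E5)⟫_ℝ with hs
    have hs1 : s ≤ 1 := inner_le_one w y
    have hsm : -1 ≤ s := neg_one_le_inner w y
    obtain ⟨-, hden, -, -, hsq⟩ := mow w y l hl0 hl1
    -- the distance
    have hd : ‖(mob (l • (w : E5)) y : E5) - (w : E5)‖ ^ 2 ≤ 8 * σ ^ 2 / u := by
      rw [hsq, hσsq, hue, div_le_div_iff₀ hden (by linarith)]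
      have h1 : 0 ≤ 1 - l := by linarith
      have h2 : (1 + s) ≤ 2 * (1 + l * s) := by nlinarith
      have h3 : 0 ≤ 1 + s := by linarith
      have h4 : 2 * (1 - l) * (1 - s) * (1 + s) ≤ 2 * (1 - l) * 2 * (2 * (1 + l * s)) := by
        apply mul_le_mul _ h2 h3 (by nlinarith)
        apply mul_le_mul_of_nonneg_left (by linarith) (by linarith)
      have h5 : 0 ≤ (1 - l) * l * (1 + l * s) :=
        mul_nonneg (mul_nonneg h1 hl0) hden.le
      nlinarith
    have hdist : ‖(mob (l • (w : E5)) y : E5) - (w : E5)‖ ^ a ≤ (8 : ℝ) ^ θ * σ ^ a * u ^ (-θ) := by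
      have hn := norm_nonneg ((mob (l • (w : E5)) y : E5) - (w : E5))
      have e1 : ‖(mob (l • (w : E5)) y : E5) - (w : E5)‖ ^ a =
          (‖(mob (l • (w : E5)) y : E5) - (w : E5)‖ ^ 2) ^ θ := by
        rw [← Real.rpow_natCast, ← Real.rpow_mul hn]
        congr 1
        rw [hθ]; push_cast; ring
      have e2 : (8 * σ ^ 2 / u) ^ θ = (8 : ℝ) ^ θ * σ ^ a * u ^ (-θ) := by
        rw [Real.div_rpow (by positivity) hu0.le, Real.mul_rpow (by norm_num) (by positivity),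
          ← Real.rpow_natCast σ 2, ← Real.rpow_mul hσ0.le, Real.rpow_neg hu0.le]
        have : ((2 : ℕ) : ℝ) * θ = a := by rw [hθ]; push_cast; ring
        rw [this]
        rfl
      rw [e1, ← e2]
      exact Real.rpow_le_rpow (sq_nonneg _) hd hθ0
    -- the logarithm
    have hlog : 1 + |ell x y| ≤ (4 + 1 / η) * v ^ (-η) := by
      have : |ell x y| = |Real.log v| := by
        unfold ell
        rw [abs_neg]
      rw [this]
      exact log_bound hη0 hη1 hv0 hv2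
    have hyoung : v ^ (-η) * u ^ (-θ) ≤ v ^ (-(1 : ℝ)) + u ^ (-(θ * m)) := by
      have hA : 0 ≤ v ^ (-η) := (Real.rpow_pos_of_pos hv0 _).le
      have hB : 0 ≤ u ^ (-θ) := (Real.rpow_pos_of_pos hu0 _).le
      have hY := Real.young_inequality_of_nonneg hA hB hconj
      have e1 : (v ^ (-η)) ^ m' = v ^ (-(1 : ℝ)) := by
        rw [← Real.rpow_mul hv0.le]
        congr 1
        rw [hη]
        field_simp
      have e2 : (u ^ (-θ)) ^ m = u ^ (-(θ * m)) := by
        rw [← Real.rpow_mul hu0.le]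
        congr 1
        ring
      rw [e1, e2] at hY
      have h3 : v ^ (-(1 : ℝ)) / m' ≤ v ^ (-(1 : ℝ)) :=
        div_le_self (Real.rpow_pos_of_pos hv0 _).le hm1'.le
      have h4 : u ^ (-(θ * m)) / m ≤ u ^ (-(θ * m)) :=
        div_le_self (Real.rpow_pos_of_pos hu0 _).le hm1.le
      linarith
    have hη4 : 0 ≤ 4 + 1 / η := by positivity
    have h8 : 0 ≤ (8 : ℝ) ^ θ * σ ^ a := by positivity
    calc (1 + |ell x y|) * ‖(mob (l • (w : E5)) y : E5) - (w : E5)‖ ^ a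
        ≤ ((4 + 1 / η) * v ^ (-η)) * ((8 : ℝ) ^ θ * σ ^ a * u ^ (-θ)) := by
          apply mul_le_mul hlog hdist (by positivity)
          exact mul_nonneg hη4 (Real.rpow_pos_of_pos hv0 _).le
      _ = (8 : ℝ) ^ θ * (4 + 1 / η) * σ ^ a * (v ^ (-η) * u ^ (-θ)) := by ring
      _ ≤ _ := by
          apply mul_le_mul_of_nonneg_left hyoung
          positivity
  have i1 := (hC1 x).1
  have i2 := (hC2 (-w)).1
  have hint : Integrable (fun y : S4 => (8 : ℝ) ^ θ * (4 + 1 / η) * σ ^ a *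
        ((1 - ⟪(x : E5), (y : E5)⟫_ℝ) ^ (-(1 : ℝ)) +
          (1 - ⟪((-w : S4) : E5), (y : E5)⟫_ℝ) ^ (-(θ * m)))) sig :=
    (i1.add i2).const_mul _
  refine (integral_mono_of_nonneg (Eventually.of_forall fun y => ?_) hint hpt).trans ?_
  · show (0 : ℝ) ≤ (1 + |ell x y|) * ‖(mob (l • (w : E5)) y : E5) - (w : E5)‖ ^ a
    positivity
  · rw [integral_const_mul, integral_add i1 i2]
    have h1 := (hC1 x).2
    have h2 := (hC2 (-w)).2
    have h3 : 0 ≤ (8 : ℝ) ^ θ * (4 + 1 / η) * σ ^ a := by positivity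
    calc _ ≤ (8 : ℝ) ^ θ * (4 + 1 / η) * σ ^ a * (C1 + C2) :=
          mul_le_mul_of_nonneg_left (add_le_add h1 h2) h3
      _ = _ := by ring

end Pool.Agent.PQP.H7
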