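import Pool.Agent.PQP.StmtsN

set_option autoImplicit false

open scoped InnerProductSpace Topology ContDiff Manifold
open MeasureTheory Filter Set

noncomputable section

namespace Pool.Agent.PQP.H7

open Pool.Agent.Helper42_Paneitz Pool.Agent.Helper82_Vir Pool.Agent.FLX Pool.Agent.PQP

theorem gn_nonneg {N : S4} {ρ : ℝ} {f : S4 → ℝ} (hf : ∀ x, 0 < f x) : 0 ≤ GN N ρ f := by
  unfold GN
  refine integral_nonneg fun x => ?_
  have h1 := inner_le_one N x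
  exact mul_nonneg (by linarith) (hf x).le

theorem sq_pos_of {b : E5} (hb : ‖b‖ < 1) : 0 < FLX.sq b := by
  unfold FLX.sq
  apply Real.sqrt_pos.2
  have := norm_nonneg b
  nlinarith

theorem norm_lam_smul {w : S4} {lam : ℝ} (h0 : 0 ≤ lam) : ‖lam • (w : E5)‖ = lam := by
  rw [norm_smul, S4_norm, mul_one, Real.norm_eq_abs, abs_of_nonneg h0]

theorem pne (hBUB : BubStmt) (hHYP : HypStmt) (hPAR : ParStmt) (hPSF : PsfStmt) (hGRS : GrsStmt) :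
    PneStmt := by
  obtain ⟨c4, hc4, hHYP⟩ := hHYP
  intro ψ N hψ
  obtain ⟨ε₁, c, T1, hε₁, hc, hT1, hB⟩ := hBUB ψ N hψ
  obtain ⟨ρ, c₆, hρ, hρ8, hc₆, hH⟩ := hHYP ψ N hψ ε₁ c hε₁ hc
  obtain ⟨Cp, hCp, hP⟩ := hPAR ψ N hψ ε₁ c ρ hε₁ hc hρ hρ8
  obtain ⟨c₂, η, hc₂, hη, hF⟩ := hPSF ψ N hψ ε₁ hε₁
  obtain ⟨Cg, hCg, hG⟩ := hGRS ψ hψ.1
  -- the small parameter
  set a : ℝ := c4 * ε₁ * c₂ with ha
  have ha0 : 0 < a := by positivity
  set ε : ℝ := min 1 (min (a / 4) (c₆ / (2 * Cp))) with hε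
  have hε0 : 0 < ε := lt_min one_pos (lt_min (by positivity) (by positivity))
  have hε1 : ε ≤ 1 := min_le_left _ _
  have hεa : ε ≤ a / 4 := (min_le_right _ _).trans (min_le_left _ _)
  have hεc : ε ≤ c₆ / (2 * Cp) := (min_le_right _ _).trans (min_le_right _ _)
  have hεc' : ε * Cp ≤ c₆ / 2 := by
    rw [le_div_iff₀ (by positivity)] at hεc
    linarith
  obtain ⟨T2, hT2, hH⟩ := hH ε hε0
  obtain ⟨T3, hT3, hP⟩ := hP ε hε0
  -- large t: `Cg / √t ≤ η`, `e^(-ct) ≤ 1/t`, `e^(-ct) ≤ 1`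
  have hev : ∀ᶠ t : ℝ in atTop, Cg / √t ≤ η ∧ Real.exp (-(c * t)) ≤ 1 / t ∧ 0 < t := by
    have h1 : Tendsto (fun t : ℝ => Cg / √t) atTop (𝓝 0) :=
      Tendsto.div_atTop tendsto_const_nhds Real.tendsto_sqrt_atTop
    have h2 : Tendsto (fun t : ℝ => t * Real.exp (-(c * t))) atTop (𝓝 0) := by
      have h3 := Real.tendsto_pow_mul_exp_neg_atTop_nhds_zero 1
      have h4 : Tendsto (fun t : ℝ => c * t) atTop atTop := tendsto_id.const_mul_atTop hc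
      have h5 := (h3.comp h4).const_mul c⁻¹
      simp only [mul_zero, Function.comp_def, pow_one] at h5
      refine h5.congr fun t => ?_
      field_simp
    have h6 : ∀ᶠ t : ℝ in atTop, Cg / √t < η := h1.eventually (gt_mem_nhds hη)
    have h7 : ∀ᶠ t : ℝ in atTop, t * Real.exp (-(c * t)) < 1 := h2.eventually (gt_mem_nhds one_pos)
    filter_upwards [h6, h7, eventually_gt_atTop 0] with t h8 h9 h10
    refine ⟨h8.le, ?_, h10⟩
    rw [le_div_iff₀ h10, mul_comm]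
    exact h9.le
  obtain ⟨T4, hT4⟩ := eventually_atTop.1 hev
  refine ⟨max (max T1 T2) (max T3 T4), fun t ht f hf => ?_⟩
  have ht1 : T1 ≤ t := (le_max_left _ _).trans ((le_max_left _ _).trans ht)
  have ht2 : T2 ≤ t := (le_max_right _ _).trans ((le_max_left _ _).trans ht)
  have ht3 : T3 ≤ t := (le_max_left _ _).trans ((le_max_right _ _).trans ht)
  have ht4 : T4 ≤ t := (le_max_right _ _).trans ((le_max_right _ _).trans ht)
  obtain ⟨hgη, hexp, ht0⟩ := hT4 t ht4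
  obtain ⟨w, lam, hb⟩ := hB t f ht1 hf
  have hH1 := hH t f w lam ht2 hb
  have hP1 := hP t f w lam ht3 hb
  obtain ⟨-, hlam0, hlam1, -, hsqe, hNw, hmass⟩ := hb
  have hnb : ‖lam • (w : E5)‖ < 1 := by rw [norm_lam_smul hlam0]; exact hlam1
  set κ : ℝ := FLX.sq (lam • (w : E5)) with hκ
  have hκ0 : 0 < κ := sq_pos_of hnb
  have hκ1 : κ ≤ 1 := by
    refine hsqe.trans ?_
    rw [Real.exp_le_one_iff]
    have := mul_pos hc ht0
    linarith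
  set G : ℝ := GN N ρ f with hGd
  have hG0 : 0 ≤ G := gn_nonneg hf.1.2.1
  set g : ℝ := ‖gd ψ w‖ with hg
  have hg0 : 0 ≤ g := norm_nonneg _
  have hgle : g ≤ η := by
    have h1 : (1 : ℝ) / 2 ≤ mas f w (Real.exp (-(c * t))) := by linarith
    exact (hG t (Real.exp (-(c * t))) w f ht0 hexp hf h1).trans hgη
  have hΔ : sphLaplacian ψ w ≤ - c₂ := (hF w hNw).2 hgle
  -- the main term
  have hmain : c4 * κ ^ 2 * (1 - ⟪(N : E5), (w : E5)⟫_ℝ) * sphLaplacian ψ w ≤ - (a * κ ^ 2) := by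
    have h1 : c4 * κ ^ 2 * ε₁ ≤ c4 * κ ^ 2 * (1 - ⟪(N : E5), (w : E5)⟫_ℝ) :=
      mul_le_mul_of_nonneg_left hNw (by positivity)
    have h2 : 0 ≤ c4 * κ ^ 2 * ε₁ := by positivity
    have h3 : 0 ≤ - sphLaplacian ψ w - c₂ := by linarith
    have h4 : 0 ≤ (c4 * κ ^ 2 * (1 - ⟪(N : E5), (w : E5)⟫_ℝ)) * (- sphLaplacian ψ w - c₂) :=
      mul_nonneg (h2.trans h1) h3
    have h5 : 0 ≤ (c4 * κ ^ 2 * (1 - ⟪(N : E5), (w : E5)⟫_ℝ) - c4 * κ ^ 2 * ε₁) * c₂ :=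
      mul_nonneg (by linarith) hc₂.le
    have e : -(a * κ ^ 2) - c4 * κ ^ 2 * (1 - ⟪(N : E5), (w : E5)⟫_ℝ) * sphLaplacian ψ w =
        (c4 * κ ^ 2 * (1 - ⟪(N : E5), (w : E5)⟫_ℝ)) * (- sphLaplacian ψ w - c₂) +
        (c4 * κ ^ 2 * (1 - ⟪(N : E5), (w : E5)⟫_ℝ) - c4 * κ ^ 2 * ε₁) * c₂ := by
      rw [ha]; ring
    linarith
  -- the error term
  have herr : ε * (κ ^ 2 + κ * g) ≤ 2 * ε * κ ^ 2 + (c₆ / 2) * G := by
    have h1 : κ * g ≤ κ * (ε * κ + Cp * G) := mul_le_mul_of_nonneg_left hP1 hκ0.le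
    have h2 : κ * (ε * κ + Cp * G) ≤ κ ^ 2 + Cp * G := by
      have h3 : κ * (Cp * G) ≤ 1 * (Cp * G) := mul_le_mul_of_nonneg_right hκ1 (by positivity)
      have h4 : ε * κ ^ 2 ≤ 1 * κ ^ 2 := mul_le_mul_of_nonneg_right hε1 (by positivity)
      have e : κ * (ε * κ + Cp * G) = ε * κ ^ 2 + κ * (Cp * G) := by ring
      linarith
    have h5 : ε * (κ ^ 2 + κ * g) ≤ ε * (κ ^ 2 + (κ ^ 2 + Cp * G)) :=
      mul_le_mul_of_nonneg_left (by linarith) hε0.le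
    have h6 : (ε * Cp) * G ≤ (c₆ / 2) * G := mul_le_mul_of_nonneg_right hεc' hG0
    have e : ε * (κ ^ 2 + (κ ^ 2 + Cp * G)) = 2 * ε * κ ^ 2 + (ε * Cp) * G := by ring
    linarith
  have hκ2 : 0 < κ ^ 2 := by positivity
  have h1 : 2 * ε * κ ^ 2 ≤ (a / 2) * κ ^ 2 := by
    apply mul_le_mul_of_nonneg_right _ hκ2.le
    linarith
  have h2 : 0 ≤ (c₆ / 2) * G := by positivity
  have h3 : 0 < (a / 2) * κ ^ 2 := by positivity
  have h7 : (c₆ / 2) * G = c₆ * G - (c₆ / 2) * G := by ring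
  have h8 : (a / 2) * κ ^ 2 = a * κ ^ 2 - (a / 2) * κ ^ 2 := by ring
  linarith

end Pool.Agent.PQP.H7
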