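import Pool.Agent.PQP.StmtsE

set_option autoImplicit false

open scoped InnerProductSpace Topology ContDiff Manifold
open MeasureTheory Filter Set

noncomputable section

namespace Pool.Agent.PQP.H7

open Pool.Agent.Helper42_Paneitz Pool.Agent.Helper82_Vir Pool.Agent.FLX Pool.Agent.PQP

theorem sm_log {Q : S4 → ℝ} (hQ : Sm Q) (hpos : ∀ x, 0 < Q x) : Sm (fun x => Real.log (Q x)) := by
  intro y hy
  have h1 : radialExt (fun x => Real.log (Q x)) =ᶠ[𝓝 y] fun z => Real.log (radialExt Q z) := by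
    filter_upwards [eventually_ne_zero hy] with z hz
    simp only [radialExt_apply _ hz]
  have h2 : radialExt Q y ≠ 0 := by
    rw [radialExt_apply _ hy]
    exact (hpos _).ne'
  exact ((hQ y hy).log h2).congr_of_eventuallyEq h1

theorem isPaneitz_one : IsPaneitzCurvature (fun _ => (1 : ℝ)) := by
  refine ⟨contMDiff_const, fun _ => Real.log 6 / 4, contMDiff_const, fun x => ?_⟩
  rw [paneitz_const]
  have : 4 * (Real.log 6 / 4) = Real.log 6 := by ring
  rw [this, Real.exp_log (by norm_num)]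
  norm_num

theorem hh_eq (moa : MoaStmt) (mom : MomStmt) (Q : S4 → ℝ) {b : E5} (hb : ‖b‖ < 1) :
    HH Q b = Hx (fun x => Real.log (Q x)) b := by
  unfold HH Hx avg
  congr 1
  have hnb : ‖-b‖ < 1 := by rw [norm_neg]; exact hb
  have h := mom (-b) hnb (fun y => Real.log (Q (mob b y)))
  rw [← h]
  refine integral_congr_ae (Eventually.of_forall fun z => ?_)
  have h1 := (moa (-b) hnb).2.2.2.1 z
  rw [neg_neg] at h1
  show Real.log (Q z) * bubv b z = Real.log (Q (mob b (mob (-b) z))) * Jac (-b) z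
  rw [h1]
  congr 1
  unfold bubv Jac
  rw [norm_neg, inner_neg_left, ← sub_eq_add_neg]

theorem sex (spe : SpeStmt) (moa : MoaStmt) (mom : MomStmt) : SexStmt := by
  intro Q hQ hpos b hb h1 h2
  set ψ : S4 → ℝ := fun x => Real.log (Q x) with hψ
  have hψs : Sm ψ := sm_log hQ hpos
  have hev : HH Q =ᶠ[𝓝 b] Hx ψ := by
    have : Metric.ball (0 : E5) 1 ∈ 𝓝 b := Metric.isOpen_ball.mem_nhds (by simpa using hb)
    filter_upwards [this] with c hc
    exact hh_eq moa mom Q (by simpa using hc)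
  have e1 : fderiv ℝ (Hx ψ) b = 0 := by rw [← hev.fderiv_eq]; exact h1
  have e2 : fderiv ℝ (fderiv ℝ (Hx ψ)) b = fderiv ℝ (fderiv ℝ (HH Q)) b :=
    (hev.fderiv.fderiv_eq).symm
  obtain ⟨t₁, ht₁, h⟩ := spe ψ b hψs hb e1 (by rw [e2]; exact h2)
  refine ⟨t₁ / 2, by positivity, fun t ht => ?_⟩
  rcases eq_or_ne t 0 with rfl | ht0
  · have : (fun x => Q x ^ (0 : ℝ)) = fun _ => (1 : ℝ) := by
      funext x; exact Real.rpow_zero _
    rw [this]
    exact isPaneitz_one
  · have h3 := h t ht0 (by linarith)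
    have h4 : (fun x => Q x ^ t) = fun x => Real.exp (t * ψ x) := by
      funext x
      rw [Real.rpow_def_of_pos (hpos x), mul_comm]
    rw [h4]
    exact h3

end Pool.Agent.PQP.H7
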