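import Pool.Agent.Helper21_PQP.AllZ
import Pool.Agent.Helper21_PQP.BAL
import Pool.Agent.Helper87_PQP.BXA
import Pool.Agent.Helper46_PQP.Exa
import Pool.Agent.Helper74_PQP.FAE
import Pool.Agent.Helper65_PQP.FAV
import Pool.Agent.Helper87_PQP.GRH
import Pool.Agent.Helper80_PQP.Lex
import Pool.Agent.Helper62_PQP.LPE
import Pool.Agent.Helper47_PQP.NEA
import Pool.Agent.Helper37_PQP.PMI
import Pool.Agent.Helper85_PQP.QDR
import Pool.Agent.Helper22_PQP.RED
import Pool.Agent.Helper50_PQP.SBF
import Pool.Agent.Helper68_PQP.SBK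
import Pool.Agent.Helper41_PQP.SBL
import Pool.Agent.Helper81_PQP.SBN
import Pool.Agent.Helper53_PQP.SBQ
import Pool.Agent.Helper7_PQP.SEX
import Pool.Agent.Helper39_PQP.SPA
import Pool.Agent.Helper71_PQP.SPE
import Pool.Agent.Helper4_PQP.Srb
import Pool.Agent.Helper51_PQP.TA3
import Pool.Agent.Helper87_PQP.XPN
import Pool.Agent.Helper91_PQP.ABD
import Pool.Agent.Helper60_PQP.ALL
import Pool.Agent.Helper60_PQP.BUB
import Pool.Agent.Helper56_PQP.CSN
import Pool.Agent.Helper92_PQP.FAR
import Pool.Agent.Helper20_PQP.GRA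
import Pool.Agent.Helper94_PQP.GRS
import Pool.Agent.Helper20_PQP.HYF
import Pool.Agent.Helper98_PQP.HYP
import Pool.Agent.Helper11_PQP.L4N
import Pool.Agent.Helper49_PQP.LN2
import Pool.Agent.Helper33_PQP.NRX
import Pool.Agent.Helper47_PQP.PAF
import Pool.Agent.Helper59_PQP.PAR
import Pool.Agent.Helper7_PQP.PNE
import Pool.Agent.Helper64_PQP.PSF
import Pool.Agent.Helper6_PQP.PSN
import Pool.Agent.Helper64_PQP.SCA
import Pool.Agent.Helper26_PQP.SPL
import Pool.Agent.Helper47_PQP.TCF
import Pool.Agent.Helper19_PQP.TIN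
import Pool.Agent.Helper92_PQP.VLO
import Pool.Agent.Helper77_PQP.WTL
import Pool.Agent.Helper92_PQP.JEF
import Pool.Agent.Helper65_PQP.NLP
import Pool.Agent.Helper2_PQP.SOL
import Pool.Agent.Helper41_PQP.SNE
import Pool.Agent.Helper3_PQP.INX

/-!
# Squad PQP: the rows of blocks N and E (and SNE) together, without hypotheses
-/

set_option autoImplicit false

noncomputable section

namespace Pool.Agent.PQP.AllNE

open Pool.Agent.FLX Pool.Agent.FLX.H54

/-! ### rows of blocks V, C which are not in AllZ -/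

theorem bal : BalStmt := H21.bal moa_all mos_all mom_all pow_all
theorem sol : SolStmt := H2.sol All.pot_ All.ker All.rep All.fin
theorem jef : JefStmt := H92.jef All.jeg All.pot_ All.ker
theorem nlp : NlpStmt := H65.nlp All.noc All.jen All.cov
theorem inx : InxStmt := H3.inx moa_all mom_all

/-! ### block E: existence -/

theorem sbl : SblStmt := H41.sbl
theorem sbk : SbkStmt := H68.sbk
theorem sbn : SbnStmt := H81.sbn sbl sbk
theorem sbf : SbfStmt := H50.sbf sbl sbk sbn
theorem red : RedStmt := H22.red sbf sbn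
theorem fav : FavStmt := H65.fav H68.mow
theorem qdr : QdrStmt := H85.qdr H68.mow
theorem nea : NeaStmt := H47.nea All.ker mos_all All.mkb
theorem fae : FaeStmt := H74.fae fav
theorem xpn : XpnStmt := H87.xpn qdr nea fae
theorem sbq : SbqStmt := H53.sbq All.mkb fav All.ker mos_all
theorem bxa : BxaStmt := H87.bxa xpn sbq red fav
theorem exa : ExaStmt := H46.exa bxa H37.pmi
theorem ta3 : Ta3Stmt := H51.ta3 All.taw H48.hsw
theorem lpe : LpeStmt := H62.lpe exa ta3
theorem lex : LexStmt := H80.lex lpe
theorem srb : SrbStmt := H4.srb exa ta3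
theorem spa : SpaStmt := H39.spa red sbl
theorem spe : SpeStmt := H71.spe spa H87.grh
theorem sex : SexStmt := H7.sex spe moa_all mom_all

/-! ### block N: non-existence for large powers -/

theorem abd : AbdStmt := H91.abd H6.psn H92.vlo All.pot_
theorem tin : TinStmt := H19.tin H64.psf abd All.jen H77.wtl
theorem all_row : AllStmt := H60.all_row tin All.cut H77.wtl
theorem csn : CsnStmt := H56.csn H6.psn H64.psf abd All.kwa jef H77.wtl
theorem sca : ScaStmt := H64.sca All.cov H8.blm moa_all
theorem bub : BubStmt := H60.bub all_row csn sca bal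
theorem gra : GraStmt := H20.gra All.vir H77.wtl
theorem grs : GrsStmt := H94.grs gra
theorem far : FarStmt := H92.far jef H64.psf abd
theorem spl : SplStmt := H26.spl far All.kwa H77.wtl
theorem tcf : TcfStmt := H47.tcf H24.tyt
theorem hyf : HyfStmt := H20.hyf H23.dil
theorem l4n : L4nStmt := H11.l4n nlp All.cov All.pot_ grs H77.wtl H24.tyt moa_all
theorem nrx : NrxStmt :=
  H33.nrx l4n All.cmw All.mtg All.cov H77.wtl moa_all
theorem par : ParStmt := H59.par spl tcf H47.paf nrx H6.psn H59.hes
theorem hyp : HypStmt := H98.hyp nrx spl tcf hyf H6.psn grs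
theorem pne : PneStmt := H7.pne bub hyp par H64.psf grs
theorem ln2 : Ln2Stmt := H49.ln2 pne sol

/-! ### non-existence for small powers -/

theorem sne : SneStmt :=
  H41.sne bal sol All.cov All.noc All.cmw All.bdd All.kwb All.bnx inx mos_all

end Pool.Agent.PQP.AllNE
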