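import Pool.Agent.PQP.Final
import Pool.Agent.Helper82_Vir.TwoCrit

set_option autoImplicit false

open scoped InnerProductSpace Topology ContDiff Manifold
open MeasureTheory Filter Set

noncomputable section

namespace Pool.Agent.PQP.H7

open Pool.Agent.Helper42_Paneitz Pool.Agent.Helper82_Vir Pool.Agent.FLX

/-- nondegenerate critical points are isolated -/
theorem isolated {f : S4 → ℝ} (hf : Sm f) {N : S4} (hnd : NondegCrit f N) :
    ∀ᶠ x in 𝓝 N, x ≠ N → ¬ Crit f x := by
  set G : E5 → E5 →L[ℝ] ℝ := fderiv ℝ (radialExt f) with hG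
  have hN0 := S4_ne_zero N
  have hN1 := S4_norm N
  have hGN : G (N : E5) = 0 := by
    ext v; exact hnd.1 v
  have hGd : HasFDerivAt G (fderiv ℝ G (N : E5)) (N : E5) := by
    have h1 : ContDiffAt ℝ ∞ G (N : E5) := (hf N hN0).fderiv_right (by simp)
    exact (h1.differentiableAt (by simp)).hasFDerivAt
  set HG := fderiv ℝ G (N : E5) with hHG
  -- lower bound on the tangent space
  obtain ⟨m, hm0, hm⟩ : ∃ m : ℝ, 0 < m ∧ ∀ v : E5, ⟪(N : E5), v⟫_ℝ = 0 →
      m * ‖v‖ ≤ ‖HG v‖ := by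
    set T : Set E5 := Metric.sphere (0 : E5) 1 ∩ {v | ⟪(N : E5), v⟫_ℝ = 0} with hT
    have hTc : IsCompact T := (isCompact_sphere (0 : E5) 1).inter_right
      (isClosed_eq (continuous_const.inner continuous_id) continuous_const)
    have hcont : Continuous fun v : E5 => ‖HG v‖ := HG.continuous.norm
    have hinj : ∀ v : E5, ⟪(N : E5), v⟫_ℝ = 0 → HG v = 0 → v = 0 := by
      intro v hv h0
      refine hnd.2 v hv fun w _ => ?_
      show HG v w = 0
      rw [h0]; rfl
    rcases T.eq_empty_or_nonempty with he | hne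
    · refine ⟨1, one_pos, fun v hv => ?_⟩
      by_cases hv0 : v = 0
      · rw [hv0]; simp
      · exfalso
        have hn := norm_pos_of_ne hv0
        have : ‖v‖⁻¹ • v ∈ T := by
          refine ⟨?_, ?_⟩
          · rw [mem_sphere_zero_iff_norm, norm_smul, norm_inv, norm_norm, inv_mul_cancel₀ hn.ne']
          · show ⟪(N : E5), ‖v‖⁻¹ • v⟫_ℝ = 0
            rw [inner_smul_right, hv, mul_zero]
        rw [he] at this
        exact this
    · obtain ⟨v₀, hv₀, hmin⟩ := hTc.exists_isMinOn hne hcont.continuousOn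
      have hv₀n : ‖v₀‖ = 1 := mem_sphere_zero_iff_norm.1 hv₀.1
      have hpos : 0 < ‖HG v₀‖ := by
        rw [norm_pos_iff]
        intro h
        have h1 := hinj v₀ hv₀.2 h
        rw [h1, norm_zero] at hv₀n
        exact zero_ne_one hv₀n
      refine ⟨‖HG v₀‖, hpos, fun v hv => ?_⟩
      by_cases hv0 : v = 0
      · rw [hv0]; simp
      · have hn := norm_pos_of_ne hv0
        have hmem : ‖v‖⁻¹ • v ∈ T := by
          refine ⟨?_, ?_⟩
          · rw [mem_sphere_zero_iff_norm, norm_smul, norm_inv, norm_norm, inv_mul_cancel₀ hn.ne']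
          · show ⟪(N : E5), ‖v‖⁻¹ • v⟫_ℝ = 0
            rw [inner_smul_right, hv, mul_zero]
        have h1 : ‖HG v₀‖ ≤ ‖HG (‖v‖⁻¹ • v)‖ := hmin hmem
        rw [map_smul, norm_smul, norm_inv, norm_norm] at h1
        have h2 := mul_le_mul_of_nonneg_right h1 hn.le
        rwa [mul_comm (‖v‖⁻¹) _, mul_assoc, inv_mul_cancel₀ hn.ne', mul_one] at h2
  -- little-o estimate
  have hlo := hGd.isLittleO
  have hev : ∀ᶠ y in 𝓝 (N : E5), ‖G y - G (N : E5) - HG (y - N)‖ ≤ m / 2 * ‖y - (N : E5)‖ :=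
    hlo.def (by positivity)
  -- the central projection
  set y : S4 → E5 := fun x => (⟪(x : E5), (N : E5)⟫_ℝ)⁻¹ • (x : E5) with hy
  have hNN : ⟪(N : E5), (N : E5)⟫_ℝ = 1 := by rw [real_inner_self_eq_norm_sq, hN1]; norm_num
  have hic : Continuous fun x : S4 => ⟪(x : E5), (N : E5)⟫_ℝ :=
    continuous_subtype_val.inner continuous_const
  have hyc : ContinuousAt y N := by
    refine ContinuousAt.smul (ContinuousAt.inv₀ hic.continuousAt ?_) ?_
    · rw [hNN]; exact one_ne_zero
    · exact continuous_subtype_val.continuousAt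
  have hyN : y N = (N : E5) := by
    simp only [hy, hNN, inv_one, one_smul]
  have hev2 : ∀ᶠ x in 𝓝 N, ‖G (y x) - G (N : E5) - HG (y x - N)‖ ≤ m / 2 * ‖y x - (N : E5)‖ := by
    have : Tendsto y (𝓝 N) (𝓝 (N : E5)) := by
      have := hyc.tendsto; rwa [hyN] at this
    exact this.eventually hev
  have hev3 : ∀ᶠ x : S4 in 𝓝 N, 0 < ⟪(x : E5), (N : E5)⟫_ℝ := by
    have h2 : (0 : ℝ) < ⟪(N : E5), (N : E5)⟫_ℝ := by rw [hNN]; exact one_pos
    exact (hic.tendsto N).eventually (lt_mem_nhds h2)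
  filter_upwards [hev2, hev3] with x hx2 hx3 hxN hcr
  set t : ℝ := ⟪(x : E5), (N : E5)⟫_ℝ with ht
  have hyx : y x = t⁻¹ • (x : E5) := rfl
  have hxy : (x : E5) = t • y x := by rw [hyx, smul_smul, mul_inv_cancel₀ hx3.ne', one_smul]
  have hyne : y x ≠ 0 := by
    rw [hyx]; exact smul_ne_zero (inv_ne_zero hx3.ne') (S4_ne_zero x)
  have hGy : G (y x) = 0 := by
    ext w
    have h := fderiv_radialExt_smul hf hx3 hyne w
    rw [← hxy] at h
    have h1 : G (x : E5) w = 0 := hcr w
    have h2 : G (x : E5) w = t⁻¹ * G (y x) w := h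
    rw [h1] at h2
    rcases mul_eq_zero.1 h2.symm with h3 | h3
    · exact absurd h3 (inv_ne_zero hx3.ne')
    · exact h3
  have hvN : ⟪(N : E5), y x - (N : E5)⟫_ℝ = 0 := by
    rw [inner_sub_right, hyx, inner_smul_right, real_inner_comm, ← ht, hNN,
      inv_mul_cancel₀ hx3.ne', sub_self]
  rw [hGy, hGN, sub_self, zero_sub, norm_neg] at hx2
  have h3 := hm _ hvN
  have h4 : ‖y x - (N : E5)‖ = 0 := by
    have := norm_nonneg (y x - (N : E5))
    nlinarith
  have h5 : y x = (N : E5) := sub_eq_zero.1 (norm_eq_zero.1 h4)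
  apply hxN
  have h6 : (x : E5) = t • (N : E5) := by rw [hxy, h5]
  have h7 := S4_norm x
  rw [h6, norm_smul, hN1, mul_one, Real.norm_of_nonneg hx3.le] at h7
  apply Subtype.ext
  rw [h6, h7, one_smul]

/-- the other critical points with negative Laplacian are finite in number -/
theorem crit_finite {f : S4 → ℝ} (hf : Sm f) {N : S4} (hN : NondegCrit f N)
    (h : ∀ p, Crit f p → p ≠ N → sphLaplacian f p ≠ 0 ∧ (sphLaplacian f p < 0 → NondegCrit f p)) :
    {p : S4 | p ≠ N ∧ Crit f p ∧ sphLaplacian f p < 0}.Finite := by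
  by_contra hinf
  obtain ⟨a, -, ha⟩ := Set.Infinite.exists_accPt_of_subset_isCompact
    (K := (univ : Set S4)) (hs := hinf) isCompact_univ (subset_univ _)
  have hcl : IsClosed {p : S4 | Crit f p ∧ sphLaplacian f p ≤ 0} := by
    have h1 : {p : S4 | Crit f p ∧ sphLaplacian f p ≤ 0} =
        (⋂ v : E5, {p : S4 | dd f p v = 0}) ∩ {p | sphLaplacian f p ≤ 0} := by
      ext p
      simp only [mem_ofPred_eq, mem_inter_iff, mem_iInter]
      rfl
    rw [h1]
    refine IsClosed.inter (isClosed_iInter fun v => ?_) ?_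
    · exact isClosed_eq (continuous_of_sm (sm_dd hf v)) continuous_const
    · exact isClosed_le (continuous_of_sm hf.sphLaplacian) continuous_const
  have hfr : ∃ᶠ y in 𝓝[≠] a, y ∈ {p : S4 | p ≠ N ∧ Crit f p ∧ sphLaplacian f p < 0} :=
    accPt_iff_frequently_nhdsNE.1 ha
  have ha1 : Crit f a ∧ sphLaplacian f a ≤ 0 := by
    have h2 : a ∈ closure {p : S4 | Crit f p ∧ sphLaplacian f p ≤ 0} := by
      rw [mem_closure_iff_frequently]
      refine (hfr.filter_mono nhdsWithin_le_nhds).mono fun y hy => ⟨hy.2.1, hy.2.2.le⟩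
    rwa [hcl.closure_eq] at h2
  have hnd : NondegCrit f a := by
    by_cases haN : a = N
    · rw [haN]; exact hN
    · obtain ⟨h3, h4⟩ := h a ha1.1 haN
      exact h4 (lt_of_le_of_ne ha1.2 h3)
  have hiso := isolated hf hnd
  have hiso' : ∀ᶠ y in 𝓝[≠] a, ¬ Crit f y := by
    rw [eventually_nhdsWithin_iff]
    filter_upwards [hiso] with y hy hya
    exact hy hya
  obtain ⟨y, hy1, hy2⟩ := (hfr.and_eventually hiso').exists
  exact hy2 hy1.2.1

end Pool.Agent.PQP.H7
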